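import Mathlib

/-!
# tau-covers: definitions

Selection principles for sets of reals and the cardinals `cov(M)`, `𝔟`.
-/

namespace Pool.Agent.Hhelper49.Tau

open Cardinal Filter Set

section covers

variable (X : Type) [TopologicalSpace X]

/-- the family `O(X)` of open covers: families of open subsets of `X` with union `X` which do not
have `X` as a member -/
def OpenCov : Set (Set (Set X)) :=
  {U | (∀ u ∈ U, IsOpen u) ∧ ⋃₀ U = Set.univ ∧ Set.univ ∉ U}

/-- the family `Ω(X)` of omega-covers: every finite subset of `X` is contained in a member -/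
def OmegaCov : Set (Set (Set X)) :=
  {U | U ∈ OpenCov X ∧ ∀ F : Set X, F.Finite → ∃ u ∈ U, F ⊆ u}

/-- the family `T(X)` of tau-covers: every point is in infinitely many members, and for all points
`x, y` the members containing `x` and not `y`, or the members containing `y` and not `x`, are
finite in number -/
def TauCov : Set (Set (Set X)) :=
  {U | U ∈ OpenCov X ∧ (∀ x : X, {u | u ∈ U ∧ x ∈ u}.Infinite) ∧
    ∀ x y : X, {u | u ∈ U ∧ x ∈ u ∧ y ∉ u}.Finite ∨ {u | u ∈ U ∧ y ∈ u ∧ x ∉ u}.Finite}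

/-- the selection principle `S_1(A, B)` -/
def S1 (A B : Set (Set (Set X))) : Prop :=
  ∀ U : ℕ → Set (Set X), (∀ n, U n ∈ A) →
    ∃ V : ℕ → Set X, (∀ n, V n ∈ U n) ∧ Set.range V ∈ B

end covers

/-- `non(S_1(T, O))`: least cardinality of a nonempty set of reals failing `S_1(T, O)` -/
noncomputable def nonTO : Cardinal.{0} :=
  sInf {κ | ∃ X : Set ℝ, X.Nonempty ∧ #X = κ ∧ ¬ S1 X (TauCov X) (OpenCov X)}

/-- `non(S_1(T, Ω))`: least cardinality of a nonempty set of reals failing `S_1(T, Ω)` -/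
noncomputable def nonTΩ : Cardinal.{0} :=
  sInf {κ | ∃ X : Set ℝ, X.Nonempty ∧ #X = κ ∧ ¬ S1 X (TauCov X) (OmegaCov X)}

/-- `cov(M)`: least number of meager subsets of the Cantor space `2^ω` with union `2^ω` -/
noncomputable def covM : Cardinal.{0} :=
  sInf {κ | ∃ F : Set (Set (ℕ → Bool)), #F = κ ∧ (∀ M ∈ F, IsMeagre M) ∧ ⋃₀ F = Set.univ}

/-- the unbounding number `𝔟`: least cardinality of a family of functions `ω → ω` without an
eventual upper bound -/
noncomputable def 𝔟 : Cardinal.{0} :=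
  sInf {κ | ∃ F : Set (ℕ → ℕ), #F = κ ∧ ∀ g : ℕ → ℕ, ∃ f ∈ F, ¬ ∀ᶠ n in atTop, f n ≤ g n}

/-! ### basic meager sets -/

/-- a real and an interval partition `[J m, J (m+1))` -/
structure Pr where
  /-- the real -/
  x : ℕ → Bool
  /-- the end points -/
  J : ℕ → ℕ
  mono : StrictMono J

/-- the basic meager set of a pair: `{y : for almost all m, y ≠ x somewhere on [J m, J (m+1))}` -/
def Pr.M (p : Pr) : Set (ℕ → Bool) :=
  {y | ∀ᶠ m in atTop, ∃ k ∈ Finset.Ico (p.J m) (p.J (m + 1)), y k ≠ p.x k}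

/-- strong inclusion: almost every interval of `q` contains an interval of `p` on which the reals
agree -/
def Pr.Le (p q : Pr) : Prop :=
  ∀ᶠ m in atTop, ∃ l, q.J m ≤ p.J l ∧ p.J (l + 1) ≤ q.J (m + 1) ∧
    ∀ k ∈ Finset.Ico (p.J l) (p.J (l + 1)), p.x k = q.x k

lemma le_strictMono {J : ℕ → ℕ} (h : StrictMono J) (n : ℕ) : n ≤ J n := h.le_apply

/-- strong inclusion implies inclusion of the basic meager sets -/
lemma Pr.M_mono {p q : Pr} (h : p.Le q) : p.M ⊆ q.M := by
  intro y hy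
  have hy' : ∀ᶠ m in atTop, ∃ k ∈ Finset.Ico (p.J m) (p.J (m + 1)), y k ≠ p.x k := hy
  obtain ⟨N, hN⟩ := eventually_atTop.1 hy'
  have h' : ∀ᶠ m in atTop, ∃ l, q.J m ≤ p.J l ∧ p.J (l + 1) ≤ q.J (m + 1) ∧
    ∀ k ∈ Finset.Ico (p.J l) (p.J (l + 1)), p.x k = q.x k := h
  change ∀ᶠ m in atTop, ∃ k ∈ Finset.Ico (q.J m) (q.J (m + 1)), y k ≠ q.x k
  filter_upwards [h', eventually_ge_atTop (p.J N)] with m hm hmN
  obtain ⟨l, h1, h2, h3⟩ := hm
  have hl : N ≤ l := by
    by_contra hcon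
    push Not at hcon
    have e1 := p.mono hcon
    have e2 := le_strictMono q.mono m
    omega
  obtain ⟨k, hk, hk'⟩ := hN l hl
  refine ⟨k, ?_, ?_⟩
  · rw [Finset.mem_Ico] at hk ⊢
    omega
  · rw [← h3 k hk]
    exact hk'

end Pool.Agent.Hhelper49.Tau
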