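import Pool.Agent.Hhelper49.Tau.Sdr

/-!
# Module Fam: the combinatorial family

Proof of `fam_chain`.  Write `p a = (x_a, J_a)`, `H_a b = J_a (2 b + 1)`; `hH` says
`H_a (H_a b) ≤ f b` for infinitely many `b`.  Replace `f` by a larger monotone function with
`b < f b` (`f' b = b + 1 + max_{c ≤ b} f c`).  Let `B 0 = 0`, `B (j+1) = f (B j)` (strictly monotone,
`j ≤ B j`).

(0) For every `a` there are infinitely many `j` with `H_a (B j) ≤ B (j+1)`: otherwise
`B (j+1) < H_a (B j)` for all `j ≥ j₀`, and for `b ≥ B j₀`, `b ∈ [B j, B (j+1))`: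
`f b ≤ f (B (j+1)) = B (j+2) < H_a (B (j+1)) ≤ H_a (H_a (B j)) ≤ H_a (H_a b)`, against `hH`.
For such `j` the `B j + 1 ≥ j + 1` intervals `[J_a l, J_a (l+1))`, `B j ≤ l ≤ 2 B j` are contained in
`[B j, B (j+1))`.

Candidates: `C = Σ j, (Fin (B (j+1)) → Bool) × (Fin (j+2) → Fin (B (j+1) + 1))` (any encoding of triples
`(j, s, e)`; there are only finitely many candidates for each `j`), and
`A n a = {(j, s, e) | n ≤ j, e monotone, B j ≤ e 0, and for every i ≤ j there is l with
e i ≤ J_a l, J_a (l+1) ≤ e (i+1), s = x_a on [J_a l, J_a (l+1))}`.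

(1) `A n a` is infinite: for the infinitely many `j` of (0) take `s = x_a`, `e i = J_a (B j + i)`.

(2) For `a < b` the set `A n b \ A n a` is finite: almost every interval of `J_b` contains an
interval of `J_a` on which `x_a = x_b` (from `hp`), the intervals of `J_b` occurring for
`(j, s, e) ∈ A n b` start at `≥ B j ≥ j`, so for large `j` the candidate is in `A n a`.

(3) Let `g : ℕ → C`, `g n = (j_n, s_n, e_n)`.  For each `j` the set
`N_j = {n : j_n = j, n ≤ j, e_n monotone, B j ≤ e_n 0}` has at most `j + 1` elements, by `exists_sdr`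
(`K = j + 1`, `e_n` extended by its last value) there are `c n ≤ j` such that the intervals
`[e_n (c n), e_n (c n + 1))`, `n ∈ N_j`, are pairwise disjoint; for different `j` they are disjoint as
they are contained in `[B j, B (j+1))`.  Let `y = s_n` on `[e_n (c n), e_n (c n + 1))`, `false`
elsewhere.  By `hu` there is `a` with `y ∈ (p a).M`, so there is `N` such that for `l ≥ N` we have
`y ≠ x_a` somewhere on `[J_a l, J_a (l+1))`.  If `g n ∈ A n a` then `n ∈ N_{j_n}` and the interval
`[e_n (c n), e_n (c n + 1))` contains some `[J_a l, J_a (l+1))` on which `y = s_n = x_a`; so `l < N`, and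
`n ≤ j_n ≤ B j_n ≤ e_n 0 ≤ J_a l < J_a N`.  Hence `{n | g n ∈ A n a}` is finite.
-/

namespace Pool.Agent.Hhelper49.Tau

open Cardinal Filter Set

/-- every row `A n` consists of infinite sets, linearly quasi-ordered by almost inclusion -/
structure TauFam {C I : Type} (A : ℕ → I → Set C) : Prop where
  inf : ∀ n i, (A n i).Infinite
  lin : ∀ n i j, (A n i \ A n j).Finite ∨ (A n j \ A n i).Finite

/-- candidates -/
abbrev Cand (B : ℕ → ℕ) : Type :=
  Σ j : ℕ, (Fin (B (j + 1)) → Bool) × (Fin (j + 2) → Fin (B (j + 1) + 1))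

/-- the real of a candidate -/
def candS (B : ℕ → ℕ) (c : Cand B) (k : ℕ) : Bool :=
  if h : k < B (c.1 + 1) then c.2.1 ⟨k, h⟩ else false

/-- the end points of a candidate -/
def candE (B : ℕ → ℕ) (c : Cand B) (i : ℕ) : ℕ :=
  (c.2.2 ⟨min i (c.1 + 1), by omega⟩).val

lemma candE_le (B : ℕ → ℕ) (c : Cand B) (i : ℕ) : candE B c i ≤ B (c.1 + 1) := by
  have := (c.2.2 ⟨min i (c.1 + 1), by omega⟩).isLt
  unfold candE
  omega

lemma cand_finite (B : ℕ → ℕ) (M : ℕ) : {c : Cand B | c.1 < M}.Finite := by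
  have : {c : Cand B | c.1 < M} ⊆ ⋃ j ∈ Set.Iio M, Set.range (Sigma.mk j) := by
    intro c hc
    simp only [Set.mem_iUnion]
    exact ⟨c.1, hc, c.2, rfl⟩
  exact ((Set.finite_Iio M).biUnion (fun j _ => Set.finite_range _)).subset this

/-- the sets of the family -/
def candA {I : Type} (B : ℕ → ℕ) (p : I → Pr) (n : ℕ) (a : I) : Set (Cand B) :=
  {c | n ≤ c.1 ∧ Monotone (candE B c) ∧ B c.1 ≤ candE B c 0 ∧ ∀ i ≤ c.1, ∃ l,
    candE B c i ≤ (p a).J l ∧ (p a).J (l + 1) ≤ candE B c (i + 1) ∧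
      ∀ k ∈ Finset.Ico ((p a).J l) ((p a).J (l + 1)), candS B c k = (p a).x k}

lemma exists_block {B : ℕ → ℕ} (hB : StrictMono B) (h0 : B 0 = 0) (b : ℕ) :
    ∃ j, B j ≤ b ∧ b < B (j + 1) := by
  classical
  have hex : ∃ j, b < B (j + 1) := ⟨b, by have := hB.le_apply (x := b + 1); omega⟩
  refine ⟨Nat.find hex, ?_, Nat.find_spec hex⟩
  rcases Nat.eq_zero_or_pos (Nat.find hex) with h | h
  · rw [h, h0]; exact Nat.zero_le _
  · have := Nat.find_min hex (show Nat.find hex - 1 < Nat.find hex by omega)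
    rw [show Nat.find hex - 1 + 1 = Nat.find hex by omega] at this
    omega

lemma freq_block {B F : ℕ → ℕ} (hF : Monotone F) (hB : StrictMono B) (h0 : B 0 = 0)
    (hBs : ∀ j, B (j + 1) = F (B j)) (J : ℕ → ℕ) (hJ : StrictMono J)
    (hH : ∃ᶠ b in atTop, J (2 * (J (2 * b + 1)) + 1) ≤ F b) :
    ∃ᶠ j in atTop, J (2 * B j + 1) ≤ B (j + 1) := by
  intro hcon
  obtain ⟨j₀, hj₀⟩ := eventually_atTop.1 hcon
  apply hH
  rw [eventually_atTop]
  refine ⟨B j₀, ?_⟩
  intro b hb hle
  obtain ⟨j, hj1, hj2⟩ := exists_block hB h0 b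
  have hjj : j₀ ≤ j := by
    by_contra hlt
    push Not at hlt
    have := hB.monotone (show j + 1 ≤ j₀ by omega)
    omega
  have e1 : F b ≤ B (j + 1 + 1) := by
    rw [hBs (j + 1)]
    exact hF hj2.le
  have e2 := hj₀ (j + 1) (by omega)
  have e3 := hj₀ j hjj
  push Not at e2 e3
  have e4 : J (2 * B (j + 1) + 1) ≤ J (2 * (J (2 * B j + 1)) + 1) :=
    hJ.monotone (by omega)
  have e5 : J (2 * B j + 1) ≤ J (2 * b + 1) := hJ.monotone (by omega)
  have e6 : J (2 * (J (2 * B j + 1)) + 1) ≤ J (2 * (J (2 * b + 1)) + 1) :=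
    hJ.monotone (by omega)
  omega

lemma candA_infinite {I : Type} {B : ℕ → ℕ} (hB : StrictMono B) (p : I → Pr) (a : I)
    (hf : ∃ᶠ j in atTop, (p a).J (2 * B j + 1) ≤ B (j + 1)) (n : ℕ) :
    (candA B p n a).Infinite := by
  apply Set.Infinite.of_image Sigma.fst
  apply Set.infinite_of_forall_exists_gt
  intro N
  obtain ⟨j, hj, hjle⟩ := (Filter.frequently_atTop.1 hf) (max n (N + 1))
  refine ⟨j, ?_, by omega⟩
  have hjB : j ≤ B j := hB.le_apply
  set c : Cand B := ⟨j, fun k => (p a).x k, fun i =>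
    ⟨min ((p a).J (B j + i)) (B (j + 1)), by omega⟩⟩ with hc
  have hE : ∀ i, candE B c i = min ((p a).J (B j + min i (j + 1))) (B (j + 1)) := fun i => rfl
  have hE' : ∀ i, i ≤ j + 1 → candE B c i = (p a).J (B j + i) := by
    intro i hi
    rw [hE, min_eq_left hi, min_eq_left]
    exact ((p a).mono.monotone (by omega)).trans hjle
  refine ⟨c, ⟨?_, ?_, ?_, ?_⟩, rfl⟩
  · change n ≤ j
    omega
  · intro s t hst
    rw [hE, hE]
    apply min_le_min_right
    apply (p a).mono.monotone
    have : min s (j + 1) ≤ min t (j + 1) := min_le_min_right _ hst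
    omega
  · change B j ≤ candE B c 0
    rw [hE' 0 (by omega)]
    exact le_strictMono (p a).mono _
  · intro i hi
    have hi' : i ≤ j := hi
    refine ⟨B j + i, (hE' i (by omega)).le, (hE' (i + 1) (by omega)).ge, ?_⟩
    intro k hk
    rw [Finset.mem_Ico] at hk
    have h1 : (p a).J (B j + i + 1) ≤ B (j + 1) :=
      ((p a).mono.monotone (by omega)).trans hjle
    have hk' : k < B (c.1 + 1) := lt_of_lt_of_le hk.2 h1
    unfold candS
    rw [dif_pos hk']

lemma candA_diff_finite {I : Type} {B : ℕ → ℕ} (hB : StrictMono B) (p : I → Pr) {a b : I}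
    (hab : (p a).Le (p b)) (n : ℕ) : (candA B p n b \ candA B p n a).Finite := by
  obtain ⟨N, hN⟩ := eventually_atTop.1 (show ∀ᶠ m in atTop, ∃ l, (p b).J m ≤ (p a).J l ∧
    (p a).J (l + 1) ≤ (p b).J (m + 1) ∧
    ∀ k ∈ Finset.Ico ((p a).J l) ((p a).J (l + 1)), (p a).x k = (p b).x k from hab)
  apply (cand_finite B ((p b).J N)).subset
  rintro c ⟨⟨h1, h2, h3, h4⟩, hca⟩
  change c.1 < (p b).J N
  by_contra hcon
  push Not at hcon
  apply hca
  refine ⟨h1, h2, h3, ?_⟩
  intro i hi
  obtain ⟨m, hm1, hm2, hm3⟩ := h4 i hi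
  have e1 : c.1 ≤ B c.1 := hB.le_apply
  have e2 : candE B c 0 ≤ candE B c i := h2 (Nat.zero_le _)
  have hNm : N ≤ m := by
    apply (p b).mono.le_iff_le.1
    omega
  obtain ⟨l, hl1, hl2, hl3⟩ := hN m hNm
  refine ⟨l, hm1.trans hl1, hl2.trans hm2, ?_⟩
  intro k hk
  rw [hl3 k hk]
  apply hm3
  rw [Finset.mem_Ico] at hk ⊢
  omega

/-- the family of a chain -/
theorem fam_chain {I : Type} [LinearOrder I] (p : I → Pr)
    (hp : ∀ a b, a < b → (p a).Le (p b)) (hu : (⋃ a, (p a).M) = Set.univ) (f : ℕ → ℕ)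
    (hH : ∀ a, ∃ᶠ b in atTop, (p a).J (2 * ((p a).J (2 * b + 1)) + 1) ≤ f b) :
    ∃ (C : Type) (_ : Countable C) (A : ℕ → I → Set C), TauFam A ∧
      ∀ g : ℕ → C, ∃ i, {n | g n ∈ A n i}.Finite := by
  classical
  -- a larger monotone function
  set F : ℕ → ℕ := fun b => b + 1 + ∑ c ∈ Finset.range (b + 1), f c with hFdef
  have hF : Monotone F := by
    intro s t hst
    have : ∑ c ∈ Finset.range (s + 1), f c ≤ ∑ c ∈ Finset.range (t + 1), f c :=
      Finset.sum_le_sum_of_subset (Finset.range_mono (by omega))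
    simp only [hFdef]
    omega
  have hFb : ∀ b, b < F b := fun b => by
    simp only [hFdef]
    omega
  have hfF : ∀ b, f b ≤ F b := fun b => by
    have : f b ≤ ∑ c ∈ Finset.range (b + 1), f c :=
      Finset.single_le_sum (f := f) (fun _ _ => Nat.zero_le _) (Finset.mem_range.2 (by omega))
    simp only [hFdef]
    omega
  set B : ℕ → ℕ := fun j => F^[j] 0 with hBdef
  have hBs : ∀ j, B (j + 1) = F (B j) := fun j => Function.iterate_succ_apply' F j 0
  have h0 : B 0 = 0 := rfl
  have hB : StrictMono B := strictMono_nat_of_lt_succ (fun j => by rw [hBs]; exact hFb _)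
  have hfreq : ∀ a, ∃ᶠ j in atTop, (p a).J (2 * B j + 1) ≤ B (j + 1) := by
    intro a
    apply freq_block hF hB h0 hBs (p a).J (p a).mono
    exact (hH a).mono (fun b hb => hb.trans (hfF b))
  refine ⟨Cand B, inferInstance, candA B p, ⟨?_, ?_⟩, ?_⟩
  · intro n a
    exact candA_infinite hB p a (hfreq a) n
  · intro n a b
    rcases lt_trichotomy a b with h | h | h
    · right
      exact candA_diff_finite hB p (hp a b h) n
    · subst h
      left
      simp
    · left
      exact candA_diff_finite hB p (hp b a h) n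
  · intro g
    -- the sets `N_j`
    set N : ℕ → Finset ℕ := fun j => (Finset.range (j + 1)).filter (fun n =>
      (g n).1 = j ∧ Monotone (candE B (g n)) ∧ B j ≤ candE B (g n) 0) with hN
    have hNcard : ∀ j, (N j).card ≤ j + 1 := fun j =>
      (Finset.card_filter_le _ _).trans (by simp)
    have hsdr := fun j => exists_sdr (j + 1) (N j) (hNcard j) (fun n => candE B (g n))
      (fun n hn => (Finset.mem_filter.1 hn).2.2.1)
    choose c hc1 hc2 using hsdr
    set P : ℕ → Prop := fun n => n ∈ N (g n).1 with hP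
    set lo : ℕ → ℕ := fun n => candE B (g n) (c (g n).1 n) with hlo
    set hi : ℕ → ℕ := fun n => candE B (g n) (c (g n).1 n + 1) with hhi
    have hPmono : ∀ n, P n → Monotone (candE B (g n)) := fun n hn =>
      (Finset.mem_filter.1 hn).2.2.1
    have hloB : ∀ n, P n → B (g n).1 ≤ lo n := fun n hn =>
      (Finset.mem_filter.1 hn).2.2.2.trans (hPmono n hn (Nat.zero_le _))
    have hhiB : ∀ n, hi n ≤ B ((g n).1 + 1) := fun n => candE_le B _ _
    have hdisj : ∀ n m k, P n → P m → lo n ≤ k → k < hi n → lo m ≤ k → k < hi m → n = m := by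
      intro n m k hn hm h1 h2 h3 h4
      by_contra hne
      rcases lt_trichotomy (g n).1 (g m).1 with h | h | h
      · have e1 := hB.monotone (show (g n).1 + 1 ≤ (g m).1 from h)
        have e2 := hhiB n
        have e3 := hloB m hm
        omega
      · have hm' : m ∈ N (g n).1 := by rw [h]; exact hm
        have := hc2 (g n).1 n hn m hm' hne
        simp only [hlo, hhi] at h1 h2 h3 h4
        rw [← h] at h3 h4
        omega
      · have e1 := hB.monotone (show (g m).1 + 1 ≤ (g n).1 from h)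
        have e2 := hhiB m
        have e3 := hloB n hn
        omega
    set y : ℕ → Bool := fun k => if h : ∃ n, P n ∧ lo n ≤ k ∧ k < hi n then
      candS B (g h.choose) k else false with hy
    have hyk : ∀ n k, P n → lo n ≤ k → k < hi n → y k = candS B (g n) k := by
      intro n k hn h1 h2
      have hex : ∃ n, P n ∧ lo n ≤ k ∧ k < hi n := ⟨n, hn, h1, h2⟩
      have e : hex.choose = n :=
        hdisj _ _ k hex.choose_spec.1 hn hex.choose_spec.2.1 hex.choose_spec.2.2 h1 h2
      simp only [hy]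
      rw [dif_pos hex, e]
    have hyu : y ∈ ⋃ a, (p a).M := by rw [hu]; trivial
    obtain ⟨a, ha⟩ := Set.mem_iUnion.1 hyu
    obtain ⟨L, hL⟩ := eventually_atTop.1 (show ∀ᶠ m in atTop,
      ∃ k ∈ Finset.Ico ((p a).J m) ((p a).J (m + 1)), y k ≠ (p a).x k from ha)
    refine ⟨a, ?_⟩
    apply (Set.finite_lt_nat ((p a).J L)).subset
    intro n hn
    change n < (p a).J L
    obtain ⟨g1, g2, g3, g4⟩ := (show g n ∈ candA B p n a from hn)
    have hPn : P n := Finset.mem_filter.2 ⟨Finset.mem_range.2 (by omega), rfl, g2, g3⟩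
    have hcn : c (g n).1 n ≤ (g n).1 := by
      have := hc1 (g n).1 n hPn
      omega
    obtain ⟨l, hl1, hl2, hl3⟩ := g4 _ hcn
    have hlL : l < L := by
      by_contra hcon
      push Not at hcon
      obtain ⟨k, hk, hk'⟩ := hL l hcon
      apply hk'
      rw [← hl3 k hk]
      rw [Finset.mem_Ico] at hk
      exact hyk n k hPn (hl1.trans hk.1) (lt_of_lt_of_le hk.2 hl2)
    have e1 := (p a).mono hlL
    have e2 : (g n).1 ≤ B (g n).1 := hB.le_apply
    have e3 : candE B (g n) 0 ≤ candE B (g n) (c (g n).1 n) := g2 (Nat.zero_le _)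
    omega

/-- the family of a dominating family -/
theorem fam_dom {I : Type} (h : I → ℕ → ℕ)
    (hh : ∀ f : ℕ → ℕ, ∃ i, ∀ᶠ n in atTop, f n ≤ h i n) :
    ∃ A : ℕ → I → Set ℕ, TauFam A ∧ ∀ g : ℕ → ℕ, ∃ i, {n | g n ∈ A n i}.Finite := by
  refine ⟨fun n i => {m | h i n < m}, ⟨?_, ?_⟩, ?_⟩
  · intro n i
    exact Set.infinite_of_not_bddAbove (fun ⟨b, hb⟩ => by
      have := hb (show max b (h i n) + 1 ∈ {m | h i n < m} by
        change h i n < max b (h i n) + 1
        omega)
      omega)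
  · intro n i j
    left
    apply (Set.finite_Iic (h j n)).subset
    rintro m ⟨_, hm⟩
    have hm' : ¬ h j n < m := hm
    exact not_lt.1 hm'
  · intro g
    obtain ⟨i, hi⟩ := hh g
    refine ⟨i, ?_⟩
    obtain ⟨N, hN⟩ := eventually_atTop.1 hi
    apply (Set.finite_lt_nat N).subset
    intro n hn
    change n < N
    by_contra hcon
    have h1 := hN n (not_lt.1 hcon)
    have h2 : h i n < g n := hn
    omega

end Pool.Agent.Hhelper49.Tau
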