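import Pool.Agent.Hhelper49.Tau.Defs

/-!
# Module LowerA: tau-covers are omega-covers

Let `U` be a tau-cover of `X` and `F` a finite set of points.  The relation
`x ≤ y :⇔ {u ∈ U | x ∈ u, y ∉ u} is finite` is total and transitive
(`{x ∈ u, z ∉ u} ⊆ {x ∈ u, y ∉ u} ∪ {y ∈ u, z ∉ u}`), so a finite nonempty `F` has an element `x` with
`x ≤ y` for all `y ∈ F` (induction on `F`).  `x` is in infinitely many members, only finitely many of
them miss a point of `F`.  For `F = ∅` any member will do (`U` is nonempty as `X` is nonempty).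
-/

namespace Pool.Agent.Hhelper49.Tau

open Cardinal Filter Set

theorem tau_subset_omega {X : Type} [TopologicalSpace X] [Nonempty X] {U : Set (Set X)}
    (hU : U ∈ TauCov X) (F : Set X) (hF : F.Finite) : ∃ u ∈ U, F ⊆ u := by
  classical
  have key : ∃ x : X, ∀ y ∈ F, {u | u ∈ U ∧ x ∈ u ∧ y ∉ u}.Finite := by
    induction F, hF using Set.Finite.induction_on with
    | empty => exact ⟨Classical.arbitrary X, fun y hy => absurd hy (Set.notMem_empty y)⟩
    | @insert a F _ _ ih =>
      obtain ⟨x, hx⟩ := ih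
      rcases hU.2.2 x a with h | h
      · refine ⟨x, fun y hy => ?_⟩
        rcases Set.mem_insert_iff.1 hy with rfl | hy
        · exact h
        · exact hx y hy
      · refine ⟨a, fun y hy => ?_⟩
        rcases Set.mem_insert_iff.1 hy with rfl | hy
        · refine Set.Finite.subset Set.finite_empty ?_
          rintro u ⟨_, h1, h2⟩
          exact absurd h1 h2
        · refine Set.Finite.subset (h.union (hx y hy)) ?_
          rintro u ⟨h0, h1, h2⟩
          by_cases h3 : x ∈ u
          · exact Or.inr ⟨h0, h3, h2⟩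
          · exact Or.inl ⟨h0, h1, h3⟩
  obtain ⟨x, hx⟩ := key
  have h1 : (⋃ y ∈ F, {u | u ∈ U ∧ x ∈ u ∧ y ∉ u}).Finite := hF.biUnion hx
  obtain ⟨u, hu1, hu2⟩ := ((hU.2.1 x).sdiff h1).nonempty
  refine ⟨u, hu1.1, fun y hy => ?_⟩
  by_contra hcon
  apply hu2
  simp only [Set.mem_iUnion]
  exact ⟨y, hy, hu1.1, hu1.2, hcon⟩

end Pool.Agent.Hhelper49.Tau
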