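import Pool.Agent.Hhelper49.Tau.Defs

/-!
# Module LowerB: countable subcovers of omega-covers

For every `k` the sets `{v : Fin k → X | ∀ j, v j ∈ u}`, `u ∈ U`, are open and cover `Fin k → X`, which is
second countable, so countably many of them cover (`TopologicalSpace.isOpen_iUnion_countable` or
`TopologicalSpace.isOpen_sUnion_countable`); take the union over `k`.
-/

namespace Pool.Agent.Hhelper49.Tau

open Cardinal Filter Set

theorem exists_countable {X : Type} [TopologicalSpace X] [SecondCountableTopology X]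
    {U : Set (Set X)} (ho : ∀ u ∈ U, IsOpen u) (h : ∀ F : Set X, F.Finite → ∃ u ∈ U, F ⊆ u) :
    ∃ U' : Set (Set X), U' ⊆ U ∧ U'.Countable ∧ ∀ F : Set X, F.Finite → ∃ u ∈ U', F ⊆ u := by
  classical
  have key : ∀ k : ℕ, ∃ T : Set U, T.Countable ∧
      ⋃ i ∈ T, {v : Fin k → X | ∀ j, v j ∈ (i : Set X)} =
        ⋃ i : U, {v : Fin k → X | ∀ j, v j ∈ (i : Set X)} := by
    intro k
    refine TopologicalSpace.isOpen_iUnion_countable _ ?_
    intro i
    have : {v : Fin k → X | ∀ j, v j ∈ (i : Set X)} = Set.pi Set.univ fun _ => (i : Set X) := by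
      ext v; simp
    rw [this]
    exact isOpen_set_pi Set.finite_univ fun _ _ => ho _ i.2
  choose T hTc hT using key
  refine ⟨⋃ k, Subtype.val '' T k, ?_, ?_, ?_⟩
  · refine Set.iUnion_subset fun k => ?_
    rintro _ ⟨i, -, rfl⟩
    exact i.2
  · exact Set.countable_iUnion fun k => (hTc k).image _
  · intro F hF
    obtain ⟨u, hu, hFu⟩ := h F hF
    obtain ⟨k, v, hv⟩ : ∃ (k : ℕ) (v : Fin k → X), Set.range v = F := by
      have := hF.fintype
      refine ⟨Fintype.card F, fun j => ((Fintype.equivFin F).symm j : X), ?_⟩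
      rw [show (fun j => ((Fintype.equivFin F).symm j : X)) =
        Subtype.val ∘ (Fintype.equivFin F).symm from rfl, Set.range_comp,
        (Fintype.equivFin F).symm.surjective.range_eq, Set.image_univ, Subtype.range_coe]
    have h1 : v ∈ ⋃ i : U, {v : Fin k → X | ∀ j, v j ∈ (i : Set X)} := by
      refine Set.mem_iUnion.2 ⟨⟨u, hu⟩, fun j => hFu ?_⟩
      rw [← hv]
      exact Set.mem_range_self j
    rw [← hT k] at h1
    obtain ⟨i, hi⟩ := Set.mem_iUnion.1 h1
    obtain ⟨hiT, hi'⟩ := Set.mem_iUnion.1 hi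
    refine ⟨i, Set.mem_iUnion.2 ⟨k, i, hiT, rfl⟩, ?_⟩
    rw [← hv]
    rintro _ ⟨j, rfl⟩
    exact hi' j

end Pool.Agent.Hhelper49.Tau
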