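import Pool.Agent.Hhelper49.Tau.Defs

/-!
# Module LowerC: the selection principle below `cov(M)`

The two parts are the modules LowerA and LowerB (assumptions `hA`, `hB` here).

Let `U n` be tau-covers, `U' n = {u n m : m ∈ ℕ}` countable subfamilies as in `hB` (nonempty as `F = ∅`
is contained in a member).  If `X` is finite there are no tau-covers (a tau-cover has infinitely
many members and `X` has finitely many subsets).  If `X` is infinite the set of finite subsets
of `X` has cardinality `#X < covM` (`Cardinal.mk_finset_of_infinite`).  For `y : ℕ → Bool` let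
`g_y n` be the least `m` with `y (Nat.pair n m) = true` (`0` if there is none).  For a finite set `F`,
`N_F = {y : ∀ n, ¬ F ⊆ u n (g_y n)}` is nowhere dense: given finitely many prescribed coordinates of
`y`, choose `n` such that no coordinate `Nat.pair n m` is prescribed and `m` with `F ⊆ u n m`; put
`y (Nat.pair n m') = false` for `m' < m`, `true` for `m' = m`: all such `y` have `g_y n = m`, so are outside
`N_F`.  (It is convenient to show that the complement of `N_F` contains the open set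
`⋃ n, ⋃ m with F ⊆ u n m, {y | y (n,m) = true, y (n,m') = false for m' < m}`, which is dense.)  As
there are fewer than `covM` sets `N_F` they do not cover (definition of `covM` as an infimum), so
there is `y` with: for every finite `F` some `n` has `F ⊆ u n (g_y n)`.  `V n = u n (g_y n)`.  The range of
`V` is in `OmegaCov X`: open sets, not the whole space (members of `U n`), the union is everything
(`F = {x}`).
-/

namespace Pool.Agent.Hhelper49.Tau

open Cardinal Filter Set

/-- the least `m` with `y (n, m) = true` -/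
private noncomputable def lcG (y : ℕ → Bool) (n : ℕ) : ℕ := sInf {m | y (Nat.pair n m) = true}

private lemma lcG_eq {y : ℕ → Bool} {n m : ℕ} (h1 : y (Nat.pair n m) = true)
    (h2 : ∀ m' < m, y (Nat.pair n m') = false) : lcG y n = m := by
  have hm : m ∈ {m | y (Nat.pair n m) = true} := h1
  apply le_antisymm (Nat.sInf_le hm)
  by_contra hcon
  push Not at hcon
  have h3 : lcG y n ∈ {m | y (Nat.pair n m) = true} := Nat.sInf_mem ⟨m, hm⟩
  have h4 : y (Nat.pair n (lcG y n)) = true := h3
  have h5 : y (Nat.pair n (lcG y n)) = false := h2 _ hcon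
  rw [h5] at h4
  exact Bool.false_ne_true h4

private lemma lc_meagre {P : ℕ → ℕ → Prop} (hP : ∀ n, ∃ m, P n m) :
    IsMeagre {y : ℕ → Bool | ∀ n, ¬ P n (lcG y n)} := by
  have hO : IsOpen {y : ℕ → Bool | ∃ n m, P n m ∧ y (Nat.pair n m) = true ∧
      ∀ m' < m, y (Nat.pair n m') = false} := by
    have h : {y : ℕ → Bool | ∃ n m, P n m ∧ y (Nat.pair n m) = true ∧
        ∀ m' < m, y (Nat.pair n m') = false} = ⋃ n, ⋃ m, ⋃ (_ : P n m),
        ((fun y : ℕ → Bool => y (Nat.pair n m)) ⁻¹' {true} ∩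
        ⋂ m' ∈ Finset.range m, (fun y : ℕ → Bool => y (Nat.pair n m')) ⁻¹' {false}) := by
      ext y
      simp only [Set.mem_ofPred_eq, Set.mem_iUnion, Set.mem_inter_iff, Set.mem_preimage,
        Set.mem_singleton_iff, Set.mem_iInter, Finset.mem_range, exists_prop]
    rw [h]
    refine isOpen_iUnion fun n => isOpen_iUnion fun m => isOpen_iUnion fun _ => ?_
    apply IsOpen.inter
    · exact (isOpen_discrete _).preimage (continuous_apply _)
    · apply isOpen_biInter_finset
      intro m' _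
      exact (isOpen_discrete _).preimage (continuous_apply _)
  have hD : Dense {y : ℕ → Bool | ∃ n m, P n m ∧ y (Nat.pair n m) = true ∧
      ∀ m' < m, y (Nat.pair n m') = false} := by
    rw [dense_iff_inter_open]
    rintro V hV ⟨y0, hy0⟩
    obtain ⟨I, w, hw, hIw⟩ := isOpen_pi_iff.1 hV y0 hy0
    set n := I.sup (fun i => (Nat.unpair i).1) + 1 with hn
    obtain ⟨m, hm⟩ := hP n
    refine ⟨fun k => if (Nat.unpair k).1 = n then decide ((Nat.unpair k).2 = m) else y0 k, ?_,
      n, m, hm, ?_, ?_⟩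
    · apply hIw
      intro i hi
      have h1 : (Nat.unpair i).1 ≤ I.sup (fun i => (Nat.unpair i).1) :=
        Finset.le_sup (f := fun i => (Nat.unpair i).1) hi
      have h2 : (Nat.unpair i).1 ≠ n := by omega
      simp only [h2, if_false]
      exact (hw i hi).2
    · simp
    · intro m' hm'
      have : m' ≠ m := by omega
      simp [this]
  have hR := residual_of_dense_open hO hD
  rw [IsMeagre]
  refine Filter.mem_of_superset hR ?_
  rintro y ⟨n, m, h1, h2, h3⟩ hy
  apply hy n
  rw [lcG_eq h2 h3]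
  exact h1

theorem S1_of_card_lt_aux {X : Set ℝ} (hne : X.Nonempty) (hX : #X < covM)
    (hA : ∀ U ∈ TauCov X, ∀ F : Set X, F.Finite → ∃ u ∈ U, F ⊆ u)
    (hB : ∀ U : Set (Set X), (∀ u ∈ U, IsOpen u) → (∀ F : Set X, F.Finite → ∃ u ∈ U, F ⊆ u) →
      ∃ U' : Set (Set X), U' ⊆ U ∧ U'.Countable ∧ ∀ F : Set X, F.Finite → ∃ u ∈ U', F ⊆ u) :
    S1 X (TauCov X) (OmegaCov X) := by
  classical
  intro U hU
  have : Nonempty X := hne.to_subtype
  have h1 : ∀ n, ∃ u : ℕ → Set X, (∀ m, u m ∈ U n) ∧ ∀ F : Set X, F.Finite → ∃ m, F ⊆ u m := by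
    intro n
    obtain ⟨U', hsub, hc, hF⟩ := hB (U n) (hU n).1.1 (hA (U n) (hU n))
    have hne' : U'.Nonempty := by
      obtain ⟨u, hu, _⟩ := hF ∅ Set.finite_empty
      exact ⟨u, hu⟩
    obtain ⟨u, hu⟩ := hc.exists_eq_range hne'
    refine ⟨u, fun m => hsub (by rw [hu]; exact ⟨m, rfl⟩), fun F hF' => ?_⟩
    obtain ⟨v, hv, hFv⟩ := hF F hF'
    rw [hu] at hv
    obtain ⟨m, rfl⟩ := hv
    exact ⟨m, hFv⟩
  choose u hu1 hu2 using h1
  rcases finite_or_infinite X with hfin | hinf
  · exfalso
    obtain ⟨x⟩ := ‹Nonempty X›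
    exact (hU 0).2.1 x (Set.toFinite _)
  -- few meager sets do not cover
  obtain ⟨y, hy⟩ : ∃ y : ℕ → Bool, ∀ F : Finset X, ∃ n, (F : Set X) ⊆ u n (lcG y n) := by
    by_contra hcon
    have hcon' : ∀ y : ℕ → Bool, ∃ F : Finset X, ∀ n, ¬ (F : Set X) ⊆ u n (lcG y n) := by
      intro y
      by_contra h
      apply hcon
      refine ⟨y, fun F => ?_⟩
      by_contra h'
      exact h ⟨F, fun n hn => h' ⟨n, hn⟩⟩
    have h2 : covM ≤ #(Set.range (fun F : Finset X =>
        {y : ℕ → Bool | ∀ n, ¬ (F : Set X) ⊆ u n (lcG y n)})) := by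
      apply csInf_le'
      refine ⟨_, rfl, ?_, ?_⟩
      · rintro M ⟨F, rfl⟩
        exact lc_meagre (P := fun n m => (F : Set X) ⊆ u n m)
          (fun n => hu2 n _ F.finite_toSet)
      · rw [Set.eq_univ_iff_forall]
        intro y
        obtain ⟨F, hF⟩ := hcon' y
        exact ⟨_, ⟨F, rfl⟩, hF⟩
    have h3 := h2.trans Cardinal.mk_range_le
    rw [Cardinal.mk_finset_of_infinite] at h3
    exact absurd h3 (not_le.2 hX)
  have hV : ∀ n, u n (lcG y n) ∈ U n := fun n => hu1 n _
  refine ⟨fun n => u n (lcG y n), hV, ⟨?_, ?_, ?_⟩, ?_⟩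
  · rintro _ ⟨n, rfl⟩
    exact (hU n).1.1 _ (hV n)
  · rw [Set.eq_univ_iff_forall]
    intro x
    obtain ⟨n, hn⟩ := hy {x}
    exact ⟨_, ⟨n, rfl⟩, hn (by simp)⟩
  · rintro ⟨n, hn⟩
    have h4 : u n (lcG y n) = Set.univ := hn
    exact (hU n).1.2.2 (h4 ▸ hV n)
  · intro F hF
    obtain ⟨n, hn⟩ := hy hF.toFinset
    rw [Set.Finite.coe_toFinset] at hn
    exact ⟨_, ⟨n, rfl⟩, hn⟩

end Pool.Agent.Hhelper49.Tau
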