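import Pool.Agent.Hhelper49.Tau.Defs

/-!
# Module MeagB: every meager set is contained in a basic meager set

By `isMeagre_iff_countable_union_isNowhereDense` `M ⊆ ⋃ n, F n`, `F n` closed nowhere dense; replace
`F n` by `⋃ i ≤ n, F i` (still closed with empty interior).

`extend`: `F` closed nowhere dense, `a` a natural number: there are `b > a` and `σ : ℕ → Bool` such
that no `y` with `y = σ` on `[a, b)` is in `F`.  Proof: by induction over a finite set `S` of
functions `t : ℕ → Bool` one finds `b > a` and `σ` such that for every `t ∈ S` no `y` with `y = t`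
on `[0, a)` and `y = σ` on `[a, b)` is in `F` (one more `t`: the cylinder of `t` on `[0, a)`, `σ` on
`[a, b)` is open nonempty, so it contains a point outside the closed set `F` (empty interior), hence
a cylinder around this point, given by finitely many coordinates, which misses `F`; enlarge `b`
and change `σ` on the new coordinates only).  Apply this to a finite set `S` which represents
all functions on `[0, a)` (for example the range of `Fin a → Bool`, extended by `false`).

Then define recursively `J 0 = 0`, `J (m+1) = b` and `x = σ` on `[J m, J (m+1))` from `extend` with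
`a = J m`, `F = F m`.  If `y ∈ F k` then `y ∈ F m` for `m ≥ k`, so `y ≠ x` somewhere on
`[J m, J (m+1))`, so `y ∈ p.M`.
-/

namespace Pool.Agent.Hhelper49.Tau

open Cardinal Filter Set

namespace MeagB

lemma exists_cyl {U : Set (ℕ → Bool)} (hU : IsOpen U) {x : ℕ → Bool} (hx : x ∈ U) :
    ∃ N, ∀ y : ℕ → Bool, (∀ k < N, y k = x k) → y ∈ U := by
  obtain ⟨I, u, h1, h2⟩ := isOpen_pi_iff.1 hU x hx
  refine ⟨I.sup id + 1, fun y hy => h2 fun k hk => ?_⟩
  have h3 : k ≤ I.sup id := Finset.le_sup (f := id) hk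
  rw [hy k (by omega)]
  exact (h1 k hk).2

lemma isOpen_cyl (N : ℕ) (x : ℕ → Bool) : IsOpen {y : ℕ → Bool | ∀ k < N, y k = x k} := by
  have h1 : IsOpen ((Set.Iio N).pi fun k => ({x k} : Set Bool)) :=
    isOpen_set_pi (Set.finite_Iio N) fun k _ => isOpen_discrete {x k}
  convert h1 using 1
  ext y
  simp only [Set.mem_pi, Set.mem_Iio, Set.mem_singleton_iff]
  exact Iff.rfl

lemma step {F : Set (ℕ → Bool)} (hF : IsClosed F) (hF0 : interior F = ∅) {a b : ℕ} (hab : a ≤ b)
    (t σ : ℕ → Bool) : ∃ b' ≥ b, ∃ σ' : ℕ → Bool, (∀ k < b, σ' k = σ k) ∧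
      ∀ y : ℕ → Bool, (∀ k < a, y k = t k) → (∀ k ∈ Finset.Ico a b', y k = σ' k) → y ∉ F := by
  have h1 : ∃ w, w ∉ F ∧ ∀ k < b, w k = if k < a then t k else σ k := by
    by_contra hno
    push Not at hno
    have h2 : {y : ℕ → Bool | ∀ k < b, y k = (fun k => if k < a then t k else σ k) k} ⊆ F := by
      intro y hy
      by_contra hyF
      obtain ⟨k, hk, hk'⟩ := hno y hyF
      exact hk' (hy k hk)
    have h3 := interior_maximal h2 (isOpen_cyl b _)
    rw [hF0] at h3
    exact h3 (a := fun k => if k < a then t k else σ k) fun k _ => rfl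
  obtain ⟨w, hw, hw'⟩ := h1
  obtain ⟨N, hN⟩ := exists_cyl hF.isOpen_compl hw
  refine ⟨max b N, le_max_left _ _, fun k => if k < b then σ k else w k,
    fun k hk => if_pos hk, fun y hy1 hy2 => hN y fun k hk => ?_⟩
  rcases lt_or_ge k a with h2 | h2
  · rw [hy1 k h2, hw' k (by omega), if_pos h2]
  · have h3 := hy2 k (Finset.mem_Ico.2 ⟨h2, lt_of_lt_of_le hk (le_max_right _ _)⟩)
    rw [h3]
    rcases lt_or_ge k b with h4 | h4
    · simp only [if_pos h4]
      rw [hw' k h4, if_neg (by omega)]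
    · simp only [if_neg (not_lt.2 h4)]

lemma extend {F : Set (ℕ → Bool)} (hF : IsClosed F) (hF0 : interior F = ∅) (a : ℕ) :
    ∃ b > a, ∃ σ : ℕ → Bool, ∀ y : ℕ → Bool, (∀ k ∈ Finset.Ico a b, y k = σ k) → y ∉ F := by
  classical
  have key : ∀ S : Finset (ℕ → Bool), ∃ b > a, ∃ σ : ℕ → Bool, ∀ t ∈ S, ∀ y : ℕ → Bool,
      (∀ k < a, y k = t k) → (∀ k ∈ Finset.Ico a b, y k = σ k) → y ∉ F := by
    intro S
    induction S using Finset.induction_on with
    | empty => exact ⟨a + 1, by omega, fun _ => false, fun t ht => absurd ht (Finset.notMem_empty t)⟩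
    | insert t₀ S _ ih =>
      obtain ⟨b, hb, σ, h1⟩ := ih
      obtain ⟨b', hb', σ', h2, h3⟩ := step hF hF0 hb.le t₀ σ
      refine ⟨b', lt_of_lt_of_le hb hb', σ', fun t ht y hy1 hy2 => ?_⟩
      rcases Finset.mem_insert.1 ht with rfl | ht
      · exact h3 y hy1 hy2
      · refine h1 t ht y hy1 fun k hk => ?_
        rw [Finset.mem_Ico] at hk
        rw [hy2 k (Finset.mem_Ico.2 ⟨hk.1, by omega⟩), h2 k hk.2]
  obtain ⟨b, hb, σ, h1⟩ := key (Finset.univ.image fun g : Fin a → Bool =>
    fun k => if h : k < a then g ⟨k, h⟩ else false)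
  refine ⟨b, hb, σ, fun y hy => ?_⟩
  refine h1 (fun k => if h : k < a then y k else false)
    (Finset.mem_image.2 ⟨fun i => y i, Finset.mem_univ _, rfl⟩) y (fun k hk => ?_) hy
  simp only [dif_pos hk]

end MeagB

open MeagB

theorem exists_basic {M : Set (ℕ → Bool)} (hM : IsMeagre M) : ∃ p : Pr, M ⊆ p.M := by
  classical
  obtain ⟨S, hS1, hS2, hS3⟩ := isMeagre_iff_countable_union_isNowhereDense.1 hM
  obtain ⟨f, hf⟩ := (hS2.insert ∅).exists_eq_range (Set.insert_nonempty _ _)
  have hfn : ∀ n, interior (closure (f n)) = ∅ := by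
    intro n
    have h1 : f n ∈ insert ∅ S := by
      rw [hf]
      exact ⟨n, rfl⟩
    rcases h1 with h1 | h1
    · rw [h1, closure_empty, interior_empty]
    · exact hS1 _ h1
  let F : ℕ → Set (ℕ → Bool) := fun n => ⋃ i ∈ Finset.range n, closure (f i)
  have hFc : ∀ n, IsClosed (F n) := fun n =>
    isClosed_biUnion_finset fun i _ => isClosed_closure
  have hF0 : ∀ n, interior (F n) = ∅ := by
    intro n
    induction n with
    | zero => simp [F]
    | succ n ih =>
      have h1 : F (n + 1) = closure (f n) ∪ F n := by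
        simp only [F]
        rw [Finset.range_add_one, Finset.set_biUnion_insert]
      rw [h1, interior_union_isClosed_of_interior_empty isClosed_closure ih, hfn]
  choose b hb σ hσ using fun n a => extend (hFc n) (hF0 n) a
  let J : ℕ → ℕ := fun m => Nat.rec (motive := fun _ => ℕ) 0 (fun m J => b m J) m
  have hJ : ∀ m, J (m + 1) = b m (J m) := fun m => rfl
  have hmono : StrictMono J := strictMono_nat_of_lt_succ fun m => by
    rw [hJ]
    exact hb m (J m)
  have huniq : ∀ {m m' k}, J m ≤ k → k < J (m + 1) → J m' ≤ k → k < J (m' + 1) → m = m' := by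
    intro m m' k h1 h2 h3 h4
    have h5 : m < m' + 1 := hmono.lt_iff_lt.1 (lt_of_le_of_lt h1 h4)
    have h6 : m' < m + 1 := hmono.lt_iff_lt.1 (lt_of_le_of_lt h3 h2)
    omega
  let x : ℕ → Bool := fun k => if h : ∃ m : ℕ, J m ≤ k ∧ k < J (m + 1) then
    σ h.choose (J h.choose) k else false
  have hx : ∀ m, ∀ k ∈ Finset.Ico (J m) (J (m + 1)), x k = σ m (J m) k := by
    intro m k hk
    rw [Finset.mem_Ico] at hk
    have h : ∃ m, J m ≤ k ∧ k < J (m + 1) := ⟨m, hk⟩
    have h1 : h.choose = m := huniq h.choose_spec.1 h.choose_spec.2 hk.1 hk.2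
    simp only [x, dif_pos h]
    rw [h1]
  refine ⟨⟨x, J, hmono⟩, fun y hy => ?_⟩
  obtain ⟨s, hs, hys⟩ := hS3 hy
  have h1 : s ∈ insert ∅ S := Set.mem_insert_of_mem _ hs
  rw [hf] at h1
  obtain ⟨j, rfl⟩ := h1
  change ∀ᶠ m in atTop, ∃ k ∈ Finset.Ico (J m) (J (m + 1)), y k ≠ x k
  filter_upwards [eventually_gt_atTop j] with m hm
  by_contra hno
  push Not at hno
  refine hσ m (J m) y (fun k hk => ?_) ?_
  · rw [← hJ] at hk
    rw [hno k hk, hx m k hk]
  · exact Set.mem_biUnion (Finset.mem_coe.2 (Finset.mem_range.2 hm)) (subset_closure hys)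

end Pool.Agent.Hhelper49.Tau
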