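import Pool.Agent.Hhelper49.Tau.Fam
import Pool.Agent.Hhelper49.Tau.Defs

/-!
# Module Transfer: from a combinatorial family to a set of reals failing `S_1(T, O)`

Step 0 (rows).  Put `A^k m = A (Nat.pair k m)`.  For some `k` the rows `A^k` satisfy
`∀ g : ℕ → C, ∃ i, ∀ m, g m ∉ A^k m i` (otherwise choose `g_k` with `∀ i, ∃ m, g_k m ∈ A^k m i` for every `k` and
let `g (Nat.pair k m) = g_k m`: then `{n | g n ∈ A n i}` is infinite for every `i`).  Fix this `k` and
write `A` for `A^k`.

Step 1 (points).  `C` is countable (and infinite, since `A 0 i` is infinite), let `e : C → ℕ` be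
injective (`Countable.exists_injective_nat`).  Let `Z = ℕ × C → Bool`; points
`y_i (n, c) = true ↔ c ∈ A n i` (`i ∈ I`) and `d_k (n, c) = true ↔ k < e c` (`k ∈ ℕ`),
`Y = {y_i} ∪ {d_k}`, `#Y ≤ #I + ℵ₀ = #I`.
There is a continuous injective map `φ : Z → ℝ` (`Z` is homeomorphic to `ℕ → Bool` as `ℕ × C` is
countably infinite, `Perfect.exists_nat_bool_injection` for `ℝ`, or any other embedding), a closed
embedding as `Z` is compact.  `X = φ '' Y`.

Step 2 (covers).  `u n c = {x : X | φ⁻¹(x) (n, c) = true}`, an open subset of `X` (it is the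
preimage of a clopen set under the inverse of the embedding, or the complement of the preimage of the
closed set `φ '' {z | z (n, c) = false}`), `U n = {u n c | c ∈ C}`.
`c ↦ u n c` is injective: if `e c < e c'` then `d_(e c)` is in `u n c'` and not in `u n c`.  So for
`x = φ z` the set of members of `U n` containing `x` is in bijection with `{c : z (n, c) = true}`, which is
`A n i` or `{c : k < e c}`: infinite.  The whole space is not a member (`d_(e c) ∉ u n c`), the union is
everything.  The almost inclusion: for `z, z' ∈ Y` one of `{c : z (n,c), ¬ z' (n,c)}`,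
`{c : z' (n,c), ¬ z (n,c)}` is finite: for two `y`'s this is `lin`, and `{c : ¬ k < e c}` is finite.
So `U n ∈ TauCov X`.

Step 3.  If `S1 X (TauCov X) (OpenCov X)`, there is `g : ℕ → C` such that the sets `u n (g n)` cover
`X`; but by Step 0 there is `i` with `g n ∉ A n i` for all `n`, so `φ (y_i)` is not covered.
-/

set_option linter.all false

namespace Pool.Agent.Hhelper49.Tau

open Cardinal Filter Set

namespace TransferAux

/-- Step 0: a good row -/
theorem row {C I : Type} (A : ℕ → I → Set C)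
    (hg : ∀ g : ℕ → C, ∃ i, {n | g n ∈ A n i}.Finite) :
    ∃ k, ∀ g : ℕ → C, ∃ i, ∀ m, g m ∉ A (Nat.pair k m) i := by
  by_contra hcon
  push Not at hcon
  choose G hG using hcon
  obtain ⟨i, hi⟩ := hg (fun n => G (Nat.unpair n).1 (Nat.unpair n).2)
  choose m hm using fun k => hG k i
  have h1 : (Set.range fun k => Nat.pair k (m k)).Infinite := by
    apply Set.infinite_range_of_injective
    intro a b hab
    have h2 : Nat.pair a (m a) = Nat.pair b (m b) := hab
    rw [Nat.pair_eq_pair] at h2
    exact h2.1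
  apply h1
  refine hi.subset ?_
  rintro _ ⟨k, rfl⟩
  show G (Nat.unpair (Nat.pair k (m k))).1 (Nat.unpair (Nat.pair k (m k))).2 ∈
    A (Nat.pair k (m k)) i
  rw [Nat.unpair_pair]
  exact hm k

open Classical in
/-- the point of the Cantor space with a given table -/
noncomputable def pt {C : Type} (e : C → ℕ) (T : ℕ → C → Prop) : ℕ → Bool :=
  fun t => decide (∃ n c, Nat.pair n (e c) = t ∧ T n c)

theorem pt_eq {C : Type} {e : C → ℕ} (he : Function.Injective e) (T : ℕ → C → Prop) (n : ℕ)
    (c : C) : pt e T (Nat.pair n (e c)) = true ↔ T n c := by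
  unfold pt
  simp only [decide_eq_true_eq]
  constructor
  · rintro ⟨n', c', h1, h2⟩
    rw [Nat.pair_eq_pair] at h1
    obtain ⟨rfl, h3⟩ := h1
    rw [← he h3]
    exact h2
  · intro h
    exact ⟨n, c, rfl, h⟩

/-- the tables of the points -/
def tab {C I : Type} (e : C → ℕ) (B : ℕ → I → Set C) : I ⊕ ℕ → ℕ → C → Prop
  | Sum.inl i => fun n c => c ∈ B n i
  | Sum.inr k => fun _ c => k < e c

end TransferAux

open TransferAux in
theorem transfer {C I : Type} [Countable C] [Infinite I] (A : ℕ → I → Set C) (hA : TauFam A)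
    (hg : ∀ g : ℕ → C, ∃ i, {n | g n ∈ A n i}.Finite) :
    ∃ X : Set ℝ, X.Nonempty ∧ #X ≤ #I ∧ ¬ S1 X (TauCov X) (OpenCov X) := by
  classical
  obtain ⟨k, hk⟩ := row A hg
  set B : ℕ → I → Set C := fun m i => A (Nat.pair k m) i with hB
  have hBinf : ∀ n i, (B n i).Infinite := fun n i => hA.inf _ i
  have hBlin : ∀ n i j, (B n i \ B n j).Finite ∨ (B n j \ B n i).Finite :=
    fun n i j => hA.lin _ i j
  obtain ⟨e, he⟩ := Countable.exists_injective_nat C
  haveI : Infinite C :=
    Set.infinite_univ_iff.1 ((hBinf 0 (Classical.arbitrary I)).mono (Set.subset_univ _))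
  -- the Cantor set
  obtain ⟨ψ, -, hψc, hψi⟩ := Perfect.exists_nat_bool_injection
    (C := (Set.univ : Set ℝ)) ⟨isClosed_univ, PerfectSpace.univ_preperfect⟩ Set.univ_nonempty
  have hψ : Topology.IsClosedEmbedding ψ := hψc.isClosedEmbedding hψi
  set T : I ⊕ ℕ → ℕ → C → Prop := tab e B with hT
  set θ : I ⊕ ℕ → (ℕ → Bool) := fun j => pt e (T j) with hθ
  set X : Set ℝ := Set.range fun j => ψ (θ j) with hX
  have hfin : ∀ m : ℕ, {c : C | ¬ m < e c}.Finite := by
    intro m
    have h1 : {c : C | ¬ m < e c} = e ⁻¹' (Set.Iic m) := by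
      ext c
      simp
    rw [h1]
    exact (Set.finite_Iic m).preimage he.injOn
  have hTinf : ∀ j n, {c | T j n c}.Infinite := by
    intro j n
    rcases j with i | m
    · exact hBinf n i
    · have h1 : {c | T (Sum.inr m) n c} = {c : C | ¬ m < e c}ᶜ := by
        ext c
        simp [hT, tab]
      rw [h1]
      exact (hfin m).infinite_compl
  have hTlin : ∀ j j' n, {c | T j n c ∧ ¬ T j' n c}.Finite ∨ {c | T j' n c ∧ ¬ T j n c}.Finite := by
    intro j j' n
    rcases j' with i' | m'
    · rcases j with i | m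
      · exact hBlin n i i'
      · right
        exact (hfin m).subset fun c hc => hc.2
    · left
      exact (hfin m').subset fun c hc => hc.2
  -- the open sets
  set u : ℕ → C → Set X := fun n c =>
    (Subtype.val ⁻¹' (ψ '' {w | w (Nat.pair n (e c)) = false}))ᶜ with hu
  have huo : ∀ n c, IsOpen (u n c) := by
    intro n c
    rw [hu, isOpen_compl_iff]
    apply IsClosed.preimage continuous_subtype_val
    apply hψ.isClosedMap
    exact isClosed_eq (continuous_apply _) continuous_const
  set x : I ⊕ ℕ → X := fun j => ⟨ψ (θ j), j, rfl⟩ with hx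
  have hxs : ∀ y : X, ∃ j, x j = y := by
    rintro ⟨_, j, rfl⟩
    exact ⟨j, rfl⟩
  have hmem : ∀ j n c, x j ∈ u n c ↔ T j n c := by
    intro j n c
    rw [← pt_eq he (T j) n c, hu]
    simp only [Set.mem_compl_iff, Set.mem_preimage, hx]
    rw [hψi.mem_set_image]
    show ¬ (θ j (Nat.pair n (e c)) = false) ↔ _
    rw [Bool.not_eq_false]
  have huinj : ∀ n, Function.Injective (u n) := by
    intro n c c' h
    by_contra hne
    have hne' : e c ≠ e c' := fun h => hne (he h)
    have key : ∀ a b : C, e a < e b → u n a = u n b → False := by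
      intro a b hab hu'
      have h1 : x (Sum.inr (e a)) ∈ u n b := (hmem _ n b).2 hab
      rw [← hu'] at h1
      exact lt_irrefl _ ((hmem (Sum.inr (e a)) n a).1 h1)
    rcases lt_or_gt_of_ne hne' with h1 | h1
    · exact key c c' h1 h
    · exact key c' c h1 h.symm
  set U : ℕ → Set (Set X) := fun n => Set.range (u n) with hU
  have hUT : ∀ n, U n ∈ TauCov X := by
    intro n
    refine ⟨⟨?_, ?_, ?_⟩, ?_, ?_⟩
    · rintro _ ⟨c, rfl⟩
      exact huo n c
    · rw [Set.eq_univ_iff_forall]
      intro y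
      obtain ⟨j, rfl⟩ := hxs y
      obtain ⟨c, hc⟩ := (hTinf j n).nonempty
      exact ⟨u n c, ⟨c, rfl⟩, (hmem j n c).2 hc⟩
    · rintro ⟨c, hc⟩
      have h1 : x (Sum.inr (e c)) ∈ u n c := by rw [hc]; trivial
      exact lt_irrefl _ ((hmem (Sum.inr (e c)) n c).1 h1)
    · intro y
      obtain ⟨j, rfl⟩ := hxs y
      refine ((hTinf j n).image (huinj n).injOn).mono ?_
      rintro _ ⟨c, hc, rfl⟩
      exact ⟨⟨c, rfl⟩, (hmem j n c).2 hc⟩
    · intro y y'
      obtain ⟨j, rfl⟩ := hxs y
      obtain ⟨j', rfl⟩ := hxs y'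
      have key : ∀ a b, {c | T a n c ∧ ¬ T b n c}.Finite →
          {v | v ∈ U n ∧ x a ∈ v ∧ x b ∉ v}.Finite := by
        intro a b hab
        refine (hab.image (u n)).subset ?_
        rintro _ ⟨⟨c, rfl⟩, h1, h2⟩
        exact ⟨c, ⟨(hmem a n c).1 h1, fun h => h2 ((hmem b n c).2 h)⟩, rfl⟩
      rcases hTlin j j' n with h | h
      · exact Or.inl (key j j' h)
      · exact Or.inr (key j' j h)
  refine ⟨X, ⟨_, Sum.inr 0, rfl⟩, ?_, ?_⟩
  · refine Cardinal.mk_range_le.trans ?_
    rw [Cardinal.mk_sum, Cardinal.lift_id, Cardinal.lift_id, Cardinal.mk_nat]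
    exact (Cardinal.add_eq_left (Cardinal.aleph0_le_mk I) (Cardinal.aleph0_le_mk I)).le
  · intro hS
    obtain ⟨V, hV, hcov⟩ := hS U hUT
    choose g hgV using hV
    obtain ⟨i, hi⟩ := hk g
    have h1 : x (Sum.inl i) ∈ ⋃₀ Set.range V := by
      rw [hcov.2.1]; trivial
    obtain ⟨_, ⟨n, rfl⟩, h2⟩ := h1
    rw [← hgV n] at h2
    exact hi n ((hmem (Sum.inl i) n (g n)).1 h2)

end Pool.Agent.Hhelper49.Tau
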