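import Pool.Agent.Hhelper49.Tau.Defs

/-!
# Module UpperA: `cov(M)` is infinite

Finitely many meager sets do not cover the Cantor space (Baire category theorem,
`not_isMeagre_of_isOpen` or `nonempty_of_not_isMeagre`; finite unions of meager sets are meager), and
the set of cardinals in the definition of `covM` is not empty (all singletons; points are nowhere
dense), so use `le_csInf`.
-/

namespace Pool.Agent.Hhelper49.Tau

open Cardinal Filter Set

/-- Singletons are meagre in the Cantor space. -/
lemma isMeagre_point (x : ℕ → Bool) : IsMeagre ({x} : Set (ℕ → Bool)) := by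
  apply IsNowhereDense.isMeagre
  rw [IsNowhereDense, closure_singleton]
  by_contra hne
  obtain ⟨y, hy⟩ := Set.nonempty_iff_ne_empty.mpr hne
  obtain ⟨U, hU, hUo, hyU⟩ := mem_interior.mp hy
  have hxy : y = x := hU hyU
  subst hxy
  rw [isOpen_pi_iff] at hUo
  obtain ⟨I, u, hu, hsub⟩ := hUo y hyU
  obtain ⟨n, hn⟩ := Infinite.exists_notMem_finset I
  have hmem : Function.update y n (!(y n)) ∈ (I : Set ℕ).pi u := by
    intro i hi
    have hne : i ≠ n := by
      rintro rfl
      exact hn hi
    rw [Function.update_of_ne hne]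
    exact (hu i hi).2
  have h2 : Function.update y n (!(y n)) = y := hU (hsub hmem)
  have h3 := congrFun h2 n
  rw [Function.update_self] at h3
  simp at h3

theorem aleph0_le_covM : ℵ₀ ≤ covM := by
  refine le_csInf ?_ ?_
  · refine ⟨_, Set.range fun x : ℕ → Bool => ({x} : Set (ℕ → Bool)), rfl, ?_, ?_⟩
    · rintro _ ⟨x, rfl⟩
      exact isMeagre_point x
    · rw [Set.eq_univ_iff_forall]
      intro x
      exact ⟨{x}, ⟨x, rfl⟩, rfl⟩
  · rintro κ ⟨F, rfl, hF, hcov⟩
    by_contra hlt
    rw [not_le, Cardinal.lt_aleph0_iff_set_finite] at hlt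
    have hm : IsMeagre (Set.univ : Set (ℕ → Bool)) := by
      rw [← hcov, Set.sUnion_eq_biUnion]
      exact isMeagre_biUnion hlt.countable hF
    exact not_isMeagre_of_isOpen isOpen_univ Set.univ_nonempty hm

end Pool.Agent.Hhelper49.Tau
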