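import Pool.Agent.Hhelper49.Tau.Defs

/-!
# Module UpperB: upper bounds of small families of basic meager sets

`isMeagre_M` (in module Meag) is an assumption here.

Let `#T < covM ≤ 𝔟` and `p t = (x_t, J_t)`.  (If `T` is empty, or in general, everything below works.)

Step 0.  If `#T < 𝔟` and `H : T → ℕ → ℕ` then there is `g` with `H_t ≤ g` almost everywhere for every
`t` (otherwise the range of `H` is a family as in the definition of `𝔟`, of size `≤ #T < 𝔟`).

Step 1.  Take `H_t b = J_t (b + 1)` and `g` as in Step 0.  Let `J 0 = 0`,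
`J (m+1) = max (g (J m)) (J m + 1)`.  Then for almost all `m` there is `l` with
`J m ≤ J_t l`, `J_t (l+1) ≤ J (m+1)`: take `l = J m`, `J m ≤ J_t (J m)`, and
`J_t (J m + 1) = H_t (J m) ≤ g (J m) ≤ J (m+1)` as soon as `J m` is large.

Step 2.  The sets `M_t = Pr.M ⟨x_t, J⟩` are meager, fewer than `covM`, so they do not cover (definition
of `covM`) and there is `x` outside all of them: `D_t = {m : x = x_t on [J m, J (m+1))}` is
infinite for every `t`.

Step 3.  Let `d_t b` be an element of `D_t` which is `≥ b`; by Step 0 there is `g'` with `d_t ≤ g'` almost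
everywhere for every `t`.  Let `a 0 = 0`, `a (s+1) = max (g' (a s)) (a s) + 1`, `q = (x, J ∘ a)`.  For
almost all `s`: `m = d_t (a s)` is in `D_t`, `a s ≤ m < a (s+1)`, so `[J m, J (m+1))` is contained in
`[J (a s), J (a (s+1)))`, it contains an interval of `J_t` (Step 1) and `x = x_t` on it.
-/

namespace Pool.Agent.Hhelper49.Tau

open Cardinal Filter Set

/-- Step 0: fewer than `𝔟` functions have an eventual upper bound -/
private lemma ub_bound {T : Type} (hT : #T < 𝔟) (H : T → ℕ → ℕ) :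
    ∃ g : ℕ → ℕ, ∀ t, ∀ᶠ n in atTop, H t n ≤ g n := by
  by_contra hcon
  have hcon' : ∀ g : ℕ → ℕ, ∃ t, ¬ ∀ᶠ n in atTop, H t n ≤ g n := by
    intro g
    by_contra h
    exact hcon ⟨g, fun t => by
      by_contra h'
      exact h ⟨t, h'⟩⟩
  have h1 : 𝔟 ≤ #(Set.range H) := by
    apply csInf_le'
    refine ⟨Set.range H, rfl, fun g => ?_⟩
    obtain ⟨t, ht⟩ := hcon' g
    exact ⟨H t, ⟨t, rfl⟩, ht⟩
  exact absurd (h1.trans Cardinal.mk_range_le) (not_le.2 hT)

/-- the partition of Step 1 -/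
private def ubJ (g : ℕ → ℕ) : ℕ → ℕ
  | 0 => 0
  | m + 1 => max (g (ubJ g m)) (ubJ g m + 1)

private lemma ubJ_mono (g : ℕ → ℕ) : StrictMono (ubJ g) := by
  apply strictMono_nat_of_lt_succ
  intro m
  have h : ubJ g (m + 1) = max (g (ubJ g m)) (ubJ g m + 1) := rfl
  rw [h]
  exact lt_of_lt_of_le (Nat.lt_succ_self _) (le_max_right _ _)

/-- the partition of Step 3 -/
private def ubA (g : ℕ → ℕ) : ℕ → ℕ
  | 0 => 0
  | m + 1 => max (g (ubA g m)) (ubA g m) + 1

private lemma ubA_mono (g : ℕ → ℕ) : StrictMono (ubA g) := by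
  apply strictMono_nat_of_lt_succ
  intro m
  have h : ubA g (m + 1) = max (g (ubA g m)) (ubA g m) + 1 := rfl
  rw [h]
  exact Nat.lt_succ_of_le (le_max_right _ _)

theorem exists_upper (hM : ∀ p : Pr, IsMeagre p.M) (hb : covM ≤ 𝔟) {T : Type} (hT : #T < covM)
    (p : T → Pr) : ∃ q : Pr, ∀ t, (p t).Le q := by
  obtain ⟨g, hg⟩ := ub_bound (hT.trans_le hb) (fun t b => (p t).J (b + 1))
  have hJ := ubJ_mono g
  have hJs : ∀ m, ubJ g (m + 1) = max (g (ubJ g m)) (ubJ g m + 1) := fun m => rfl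
  -- Step 2
  obtain ⟨x, hx⟩ : ∃ x : ℕ → Bool, ∀ t, x ∉ (Pr.mk (p t).x (ubJ g) hJ).M := by
    by_contra hcon
    have hcon' : ∀ x : ℕ → Bool, ∃ t, x ∈ (Pr.mk (p t).x (ubJ g) hJ).M := by
      intro x
      by_contra h
      exact hcon ⟨x, fun t h' => h ⟨t, h'⟩⟩
    have h1 : covM ≤ #(Set.range (fun t => (Pr.mk (p t).x (ubJ g) hJ).M)) := by
      apply csInf_le'
      refine ⟨_, rfl, ?_, ?_⟩
      · rintro M ⟨t, rfl⟩
        exact hM _
      · rw [Set.eq_univ_iff_forall]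
        intro x
        obtain ⟨t, ht⟩ := hcon' x
        exact ⟨_, ⟨t, rfl⟩, ht⟩
    exact absurd (h1.trans Cardinal.mk_range_le) (not_le.2 hT)
  have hD : ∀ t b, ∃ m, b ≤ m ∧ ∀ k ∈ Finset.Ico (ubJ g m) (ubJ g (m + 1)), x k = (p t).x k := by
    intro t b
    by_contra hcon
    apply hx t
    change ∀ᶠ m in atTop, ∃ k ∈ Finset.Ico (ubJ g m) (ubJ g (m + 1)), x k ≠ (p t).x k
    filter_upwards [eventually_ge_atTop b] with m hm
    by_contra h
    apply hcon
    refine ⟨m, hm, fun k hk => ?_⟩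
    by_contra hk'
    exact h ⟨k, hk, hk'⟩
  choose d hd1 hd2 using hD
  -- Step 3
  obtain ⟨g', hg'⟩ := ub_bound (hT.trans_le hb) d
  have hA := ubA_mono g'
  have hAs : ∀ m, ubA g' (m + 1) = max (g' (ubA g' m)) (ubA g' m) + 1 := fun m => rfl
  refine ⟨⟨x, fun s => ubJ g (ubA g' s), hJ.comp hA⟩, fun t => ?_⟩
  obtain ⟨B, hB⟩ := eventually_atTop.1 (hg t)
  obtain ⟨B', hB'⟩ := eventually_atTop.1 (hg' t)
  change ∀ᶠ m in atTop, ∃ l, ubJ g (ubA g' m) ≤ (p t).J l ∧
    (p t).J (l + 1) ≤ ubJ g (ubA g' (m + 1)) ∧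
    ∀ k ∈ Finset.Ico ((p t).J l) ((p t).J (l + 1)), (p t).x k = x k
  filter_upwards [eventually_ge_atTop B, eventually_ge_atTop B'] with s hs hs'
  have hsa : s ≤ ubA g' s := le_strictMono hA s
  have h1 : ubA g' s ≤ d t (ubA g' s) := hd1 t _
  have h2 : d t (ubA g' s) ≤ g' (ubA g' s) := hB' _ (hs'.trans hsa)
  have h3 : d t (ubA g' s) + 1 ≤ ubA g' (s + 1) := by
    rw [hAs]
    exact Nat.succ_le_succ (h2.trans (le_max_left _ _))
  have hd := hd2 t (ubA g' s)
  set m := d t (ubA g' s) with hm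
  have h4 : m ≤ ubJ g m := le_strictMono hJ m
  have h5 : (p t).J (ubJ g m + 1) ≤ ubJ g (m + 1) := by
    rw [hJs]
    exact (hB (ubJ g m) (((hs.trans hsa).trans h1).trans h4)).trans (le_max_left _ _)
  have h6 : ubJ g m ≤ (p t).J (ubJ g m) := le_strictMono (p t).mono _
  refine ⟨ubJ g m, (hJ.monotone h1).trans h6, h5.trans (hJ.monotone h3), ?_⟩
  intro k hk
  rw [Finset.mem_Ico] at hk
  exact (hd k (Finset.mem_Ico.2 ⟨h6.trans hk.1, hk.2.trans_le h5⟩)).symm

end Pool.Agent.Hhelper49.Tau
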