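import Pool.Agent.Hhelper49.Tau.Defs

/-!
# Module UpperC: increasing chains of basic meager sets

Let `F` be a family of meager sets with union everything and `#F = covM` (`csInf_mem`; the set of
cardinals in the definition of `covM` is nonempty: all singletons), enumerated as `N_a`,
`a ∈ covM.ord.ToType` (same cardinality, `Cardinal.mk_ord_toType`), `N_a ⊆ (r a).M` (`hB`).  By
well-founded recursion choose `p a` above all `p b`, `b < a`, and above `r a` (`hU`, the set
`{b : b < a}` has cardinality `< covM`, `Cardinal.mk_Iio_ord_toType` or similar,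
`Option {b // b < a}` as index type, `covM` infinite).  Then `N_a ⊆ (r a).M ⊆ (p a).M` (`Pr.M_mono`).
-/

set_option linter.all false

namespace Pool.Agent.Hhelper49.Tau

open Cardinal Filter Set

theorem exists_chain (hinf : ℵ₀ ≤ covM)
    (hB : ∀ M : Set (ℕ → Bool), IsMeagre M → ∃ p : Pr, M ⊆ p.M)
    (hU : ∀ (T : Type) (_ : #T < covM) (p : T → Pr), ∃ q : Pr, ∀ t, (p t).Le q) :
    ∃ p : covM.ord.ToType → Pr, (∀ a b, a < b → (p a).Le (p b)) ∧ (⋃ a, (p a).M) = Set.univ := by
  classical
  -- a family of meager sets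
  have hne : {κ | ∃ F : Set (Set (ℕ → Bool)), #F = κ ∧ (∀ M ∈ F, IsMeagre M) ∧
      ⋃₀ F = Set.univ}.Nonempty := by
    by_contra hcon
    rw [Set.not_nonempty_iff_eq_empty] at hcon
    have h1 : covM = 0 := by
      unfold covM
      rw [hcon]
      exact Cardinal.sInf_empty
    rw [h1] at hinf
    exact absurd hinf (not_le.2 Cardinal.aleph0_pos)
  obtain ⟨F, hF, hm, hcov⟩ := csInf_mem hne
  have hF' : #F = covM := hF
  have hcard : Cardinal.mk covM.ord.ToType = #F := by
    rw [hF', Cardinal.mk_ord_toType]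
  obtain ⟨en⟩ := Cardinal.eq.1 hcard
  choose r hr using fun a : covM.ord.ToType => hB (en a) (hm _ (en a).2)
  -- the cardinality of the initial segments
  have hT : ∀ a : covM.ord.ToType, #(Option {b : covM.ord.ToType // b < a}) < covM := by
    intro a
    rw [Cardinal.mk_option]
    exact Cardinal.add_lt_of_lt hinf (Cardinal.mk_Iio_ord_toType a)
      (Cardinal.one_lt_aleph0.trans_le hinf)
  -- the recursion
  set step : ∀ a : covM.ord.ToType, (∀ b, b < a → Pr) → Pr := fun a f =>
    (hU (Option {b : covM.ord.ToType // b < a}) (hT a)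
      (fun o => o.elim (r a) (fun b => f b.1 b.2))).choose with hstep
  have hspec : ∀ (a : covM.ord.ToType) (f : ∀ b, b < a → Pr)
      (o : Option {b : covM.ord.ToType // b < a}),
      (Option.elim o (r a) (fun b => f b.1 b.2)).Le (step a f) := fun a f =>
    (hU (Option {b : covM.ord.ToType // b < a}) (hT a)
      (fun o => o.elim (r a) (fun b => f b.1 b.2))).choose_spec
  have hwf : WellFounded (fun a b : covM.ord.ToType => a < b) := wellFounded_lt
  set p : covM.ord.ToType → Pr := hwf.fix step with hp
  have hpe : ∀ a, p a = step a (fun b _ => p b) := fun a => hwf.fix_eq step a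
  refine ⟨p, fun a b hab => ?_, ?_⟩
  · have h1 := hspec b (fun c _ => p c) (some ⟨a, hab⟩)
    rw [hpe b]
    exact h1
  · rw [Set.eq_univ_iff_forall]
    intro y
    have h1 : y ∈ ⋃₀ F := by rw [hcov]; trivial
    obtain ⟨M, hM, hy⟩ := h1
    rw [Set.mem_iUnion]
    refine ⟨en.symm ⟨M, hM⟩, ?_⟩
    set a := en.symm ⟨M, hM⟩ with ha
    have h2 : (en a : Set (ℕ → Bool)) = M := by rw [ha, en.apply_symm_apply]
    have h3 : y ∈ (r a).M := hr a (by rw [h2]; exact hy)
    have h4 : (r a).Le (p a) := by
      rw [hpe a]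
      exact hspec a (fun c _ => p c) none
    exact Pr.M_mono h4 h3

end Pool.Agent.Hhelper49.Tau
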