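import Pool.Agent.Hhelper49.Tau.MeagA
import Pool.Agent.Hhelper49.Tau.MeagB
import Pool.Agent.Hhelper49.Tau.UpperA
import Pool.Agent.Hhelper49.Tau.UpperB
import Pool.Agent.Hhelper49.Tau.UpperC
import Pool.Agent.Hhelper49.Tau.Fam
import Pool.Agent.Hhelper49.Tau.Transfer
import Pool.Agent.Hhelper49.Tau.LowerA
import Pool.Agent.Hhelper49.Tau.LowerB
import Pool.Agent.Hhelper49.Tau.LowerC

/-!
# Main: assembly
-/

namespace Pool.Agent.Hhelper49.Tau

open Cardinal Filter Set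

theorem S1_of_card_lt {X : Set ℝ} (hne : X.Nonempty) (hX : #X < covM) :
    S1 X (TauCov X) (OmegaCov X) := by
  have : Nonempty X := hne.to_subtype
  exact S1_of_card_lt_aux hne hX (fun U hU F hF => tau_subset_omega hU F hF)
    (fun U ho h => exists_countable ho h)

theorem exists_dominating_family : ∃ X : Set ℝ, X.Nonempty ∧ ¬ S1 X (TauCov X) (OpenCov X) := by
  obtain ⟨A, hA, hg⟩ := fam_dom (I := ℕ → ℕ) (fun i => i)
    (fun f => ⟨f, Eventually.of_forall fun _ => le_rfl⟩)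
  obtain ⟨X, h1, -, h2⟩ := transfer A hA hg
  exact ⟨X, h1, h2⟩

/-- `S_1(T, Ω)` implies `S_1(T, O)` -/
theorem S1_mono {X : Type} [TopologicalSpace X] (h : S1 X (TauCov X) (OmegaCov X)) :
    S1 X (TauCov X) (OpenCov X) := by
  intro U hU
  obtain ⟨V, hV, hV'⟩ := h U hU
  exact ⟨V, hV, hV'.1⟩

theorem covM_le_nonTΩ : covM ≤ nonTΩ := by
  obtain ⟨X, h1, h2⟩ := exists_dominating_family
  unfold nonTΩ
  refine le_csInf ?_ ?_
  · exact ⟨_, X, h1, rfl, fun h => h2 (S1_mono h)⟩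
  · rintro κ ⟨Y, hY, rfl, hY'⟩
    by_contra hcon
    exact hY' (S1_of_card_lt hY (not_le.1 hcon))

theorem nonTΩ_le_nonTO : nonTΩ ≤ nonTO := by
  obtain ⟨X, h1, h2⟩ := exists_dominating_family
  unfold nonTO
  refine le_csInf ?_ ?_
  · exact ⟨_, X, h1, rfl, h2⟩
  · rintro κ ⟨Y, hY, rfl, hY'⟩
    unfold nonTΩ
    refine csInf_le' ?_
    exact ⟨Y, hY, rfl, fun h => hY' (S1_mono h)⟩

theorem nonTO_le_of {κ : Cardinal.{0}} (h : ∃ X : Set ℝ, X.Nonempty ∧ #X ≤ κ ∧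
    ¬ S1 X (TauCov X) (OpenCov X)) : nonTO ≤ κ := by
  obtain ⟨X, h1, h2, h3⟩ := h
  refine le_trans ?_ h2
  unfold nonTO
  refine csInf_le' ?_
  exact ⟨X, h1, rfl, h3⟩

theorem nonTO_le (hb : covM ≤ 𝔟) : nonTO ≤ covM := by
  obtain ⟨p, hp, hu⟩ := exists_chain aleph0_le_covM (fun M hM => exists_basic hM)
    (fun T hT p => exists_upper isMeagre_M hb hT p)
  have hinf : Infinite covM.ord.ToType := by
    rw [Cardinal.infinite_iff, Cardinal.mk_ord_toType]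
    exact aleph0_le_covM
  apply nonTO_le_of
  by_cases hcase : ∃ f : ℕ → ℕ, ∀ a, ∃ᶠ b in atTop,
      (p a).J (2 * ((p a).J (2 * b + 1)) + 1) ≤ f b
  · obtain ⟨f, hf⟩ := hcase
    obtain ⟨C, hC, A, hA, hg⟩ := fam_chain p hp hu f hf
    obtain ⟨X, h1, h2, h3⟩ := transfer A hA hg
    rw [Cardinal.mk_ord_toType] at h2
    exact ⟨X, h1, h2, h3⟩
  · push Not at hcase
    obtain ⟨A, hA, hg⟩ := fam_dom (I := covM.ord.ToType)
      (fun a b => (p a).J (2 * ((p a).J (2 * b + 1)) + 1)) (by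
        intro f
        obtain ⟨a, ha⟩ := hcase f
        refine ⟨a, ?_⟩
        filter_upwards [ha] with b hb
        exact hb.le)
    obtain ⟨X, h1, h2, h3⟩ := transfer A hA hg
    rw [Cardinal.mk_ord_toType] at h2
    exact ⟨X, h1, h2, h3⟩

theorem main : covM ≤ nonTΩ ∧ nonTΩ ≤ nonTO ∧ (covM ≤ 𝔟 → nonTΩ = covM ∧ nonTO = covM) ∧
    min 𝔟 nonTΩ = min 𝔟 covM ∧ min 𝔟 nonTO = min 𝔟 covM := by
  have h1 := covM_le_nonTΩ
  have h2 := nonTΩ_le_nonTO
  have h3 : covM ≤ 𝔟 → nonTΩ = covM ∧ nonTO = covM := by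
    intro hb
    have h4 := nonTO_le hb
    exact ⟨le_antisymm (h2.trans h4) h1, le_antisymm h4 (h1.trans h2)⟩
  refine ⟨h1, h2, h3, ?_, ?_⟩
  · rcases le_total covM 𝔟 with hb | hb
    · rw [(h3 hb).1]
    · rw [min_eq_left hb, min_eq_left (hb.trans h1)]
  · rcases le_total covM 𝔟 with hb | hb
    · rw [(h3 hb).2]
    · rw [min_eq_left hb, min_eq_left (hb.trans (h1.trans h2))]

end Pool.Agent.Hhelper49.Tau
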