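import Pool.Agent.Hhelper49.Tau.Defs

/-!
# Module MeagA: basic meager sets are meager

`p.M = ⋃ N, {y : ∀ m ≥ N, y ≠ p.x somewhere on [J m, J (m+1))}` is a countable union of closed nowhere
dense sets (a nonempty open set contains a cylinder given by finitely many coordinates; change the
point to `p.x` on an interval `[J m, J (m+1))` beyond all these coordinates).
-/

namespace Pool.Agent.Hhelper49.Tau

open Cardinal Filter Set

theorem isMeagre_M (p : Pr) : IsMeagre p.M := by
  have h1 : p.M = ⋃ N : ℕ, {y : ℕ → Bool | ∀ m, N ≤ m →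
      ∃ k ∈ Finset.Ico (p.J m) (p.J (m + 1)), y k ≠ p.x k} := by
    ext y
    rw [mem_iUnion]
    exact eventually_atTop
  rw [h1]
  refine isMeagre_iUnion fun N => IsNowhereDense.isMeagre ?_
  have hcl : IsClosed {y : ℕ → Bool | ∀ m, N ≤ m →
      ∃ k ∈ Finset.Ico (p.J m) (p.J (m + 1)), y k ≠ p.x k} := by
    have h2 : {y : ℕ → Bool | ∀ m, N ≤ m →
        ∃ k ∈ Finset.Ico (p.J m) (p.J (m + 1)), y k ≠ p.x k} =
        ⋂ m : ℕ, ⋂ _ : N ≤ m, ⋃ k ∈ Finset.Ico (p.J m) (p.J (m + 1)), {y | y k ≠ p.x k} := by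
      ext y
      simp
    rw [h2]
    refine isClosed_iInter fun m => isClosed_iInter fun _ =>
      (Finset.finite_toSet _).isClosed_biUnion fun k _ => ?_
    have h3 : {y : ℕ → Bool | y k ≠ p.x k} = (fun y : ℕ → Bool => y k) ⁻¹' {b | b ≠ p.x k} := rfl
    rw [h3]
    exact (isClosed_discrete _).preimage (continuous_apply k)
  rw [hcl.isNowhereDense_iff, Set.eq_empty_iff_forall_notMem]
  intro y hy
  obtain ⟨I, u, hu, hIu⟩ := isOpen_pi_iff.1 isOpen_interior y hy
  obtain ⟨m, hmN, hmI⟩ : ∃ m, N ≤ m ∧ ∀ a ∈ I, a < m := by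
    refine ⟨max N (I.sup id + 1), le_max_left _ _, fun a ha => ?_⟩
    have : a ≤ I.sup id := Finset.le_sup (f := id) ha
    have := le_max_right N (I.sup id + 1)
    omega
  have hJ := le_strictMono p.mono m
  have hy' : (fun k => if p.J m ≤ k then p.x k else y k) ∈ (I : Set ℕ).pi u := by
    intro a ha
    have h4 := hmI a ha
    have h5 : ¬ p.J m ≤ a := by omega
    show (if p.J m ≤ a then p.x a else y a) ∈ u a
    rw [if_neg h5]
    exact (hu a ha).2
  obtain ⟨k, hk, hne⟩ := interior_subset (hIu hy') m hmN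
  apply hne
  rw [Finset.mem_Ico] at hk
  exact if_pos hk.1

end Pool.Agent.Hhelper49.Tau
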