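import Pool.Agent.Hhelper49.Tau.Defs

/-!
# Module Sdr: disjoint representatives of families of intervals

`N` has at most `K` elements, every `i ∈ N` has the `K` consecutive intervals
`[e i t, e i (t+1))`, `t < K`.  Induction on `K` (for all `N`, `e`): if `N` is empty nothing is to be
shown; otherwise let `i₀ ∈ N` have the smallest `e i 1`, take `c i₀ = 0`, and apply the induction
hypothesis to `N \ {i₀}`, `K - 1` and the shifted sequences `e i (t + 1)`; for the others `c i = c' i + 1`
and `e i (c i) ≥ e i 1 ≥ e i₀ 1`.
-/

namespace Pool.Agent.Hhelper49.Tau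

theorem exists_sdr {ι : Type} (K : ℕ) (N : Finset ι) (hN : N.card ≤ K) (e : ι → ℕ → ℕ)
    (he : ∀ i ∈ N, Monotone (e i)) :
    ∃ c : ι → ℕ, (∀ i ∈ N, c i < K) ∧ ∀ i ∈ N, ∀ j ∈ N, i ≠ j →
      e i (c i + 1) ≤ e j (c j) ∨ e j (c j + 1) ≤ e i (c i) := by
  classical
  induction K generalizing N e with
  | zero =>
    have : N = ∅ := Finset.card_eq_zero.1 (Nat.le_zero.1 hN)
    subst this
    exact ⟨fun _ => 0, by simp, by simp⟩
  | succ K ih =>
    rcases N.eq_empty_or_nonempty with h | h
    · subst h
      exact ⟨fun _ => 0, by simp, by simp⟩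
    · obtain ⟨i₀, hi₀, hmin⟩ := N.exists_min_image (fun i => e i 1) h
      obtain ⟨c', hc1, hc2⟩ := ih (N.erase i₀)
        (by rw [Finset.card_erase_of_mem hi₀]; omega) (fun i t => e i (t + 1))
        (fun i hi => fun s t hst => he i (Finset.mem_of_mem_erase hi) (by omega))
      refine ⟨fun i => if i = i₀ then 0 else c' i + 1, ?_, ?_⟩
      · intro i hi
        by_cases h1 : i = i₀
        · simp [h1]
        · simp only [h1, if_false]
          have := hc1 i (Finset.mem_erase.2 ⟨h1, hi⟩)
          omega
      · intro i hi j hj hij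
        by_cases h1 : i = i₀
        · subst h1
          have h2 : j ≠ i := fun h => hij h.symm
          simp only [if_true, h2, if_false]
          left
          exact (hmin j hj).trans (he j hj (by omega))
        · by_cases h2 : j = i₀
          · subst h2
            simp only [if_true, h1, if_false]
            right
            exact (hmin i hi).trans (he i hi (by omega))
          · simp only [h1, h2, if_false]
            exact hc2 i (Finset.mem_erase.2 ⟨h1, hi⟩) j (Finset.mem_erase.2 ⟨h2, hj⟩) hij

end Pool.Agent.Hhelper49.Tau
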